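import Pool.Agent.H98.AF.Main2

set_option autoImplicit false

/-!
# Almost every convex polygon among all bounded convex domains

A convex polygon with `n + 3` vertices is a point `p` of `Fin (n + 3) → ℂ` with `IsConvexPolygon p`,
and almost every refers to Lebesgue measure on this space. The polygons with the same Dirichlet
spectrum may have any number of vertices.

The proof. A bounded convex domain with the spectrum of a polygon is a polygon `Q`, and for almost
every `P` it is congruent to `P` if it has at most as many vertices. Suppose that for a set of
positive measure there are such `Q` with more vertices. The sum of the corner coefficients shows that
two exterior angles of `P`, at vertices `v`, `w`, are not exterior angles of `Q`; the set of the missing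
angles is made constant by a partition and minimal. By recurrence (in the directions of two orbits) the set
contains double sequences of polygons which differ only in the four sides at `v` and `w`: these
turn by different angles, and for each angle there are infinitely many translations which keep the
perimeter (if `v`, `w` are neighbours, the side between them is translated). With an iterated
ultrafilter the sides of the companions `Q` are divided into constant and nonconstant ones. The
exponentially small terms of the heat trace are compared for four polygons, two of the family and
their companions.

* The first nonconstant term of `P` contains one of the moving angles and cannot occur in `Q`. If only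
  one side moves and its two exterior angles have a sum larger than `π`, this term can be the one of
  the loops of length twice the least perimeter of an inscribed triangle; a lower bound for the
  Brownian loops of this length excludes this case.
* A constant term of `Q` is impossible unless it comes from two acute angles of `Q` which vary and have
  the same height; these are different and not angles of `P`.
* If `Q` has no such term, it contains a strip between two antiparallel sides which is at most as wide
  as all other distances. The loops across the strip have a larger exponential order of the prefactor
  than those at pairs of sides, so that the width is constant for each line of translations. If at most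
  four sides vary then the angles and all lengths but those of the two antiparallel sides are constant
  on the line, and the area of `Q` is an affine function of its perimeter, which does not hold for `P`.
* What remains are companions with at most three nonconstant sides. These are excluded by the area,
  which is a nonconstant quadratic polynomial of the translations, or, if only one side of `P` moves, by
  the identity theorem for an equation between its two exterior angles.

The companions with two acute angles of the same height are excluded, too, if at most one acute angle
of `P` is not an angle of `Q` (folder `H98/AF`). For almost every `P` which has a companion there is a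
real analytic section: companions `Q = σ(P)` for all `P` in an open set, on which the same angles agree
(finite order of vanishing of analytic functions, Sard's theorem). By the first part two acute corners
of `Q` are different and not angles of `P`. On a smaller open set every angle of `P` is always or
never an angle of `Q`. Let `J` be the set of the missing angles. The gradients of the lengths, the
cosines of the angles, the squares of the heights, the perimeter and the area, at a suitable point,
define a matroid; for each set of functions which does not span there is an infinite sequence of
polygons on which exactly the functions in the span are constant and the others are injective. The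
comparison of the exponentially small terms for such sequences determines the lengths and angles of
`P` step by step (the events), as functions of the angles which are not in `J`, the perimeter, and the
acute angles of `Q`. The polygon `Q` has fewer than `J.card` new acute corners, by the convexity of
the corner coefficient. Since there are at most three of them, each with a height which may coincide
with the others, a count of the dimensions in each of the cases shows that all data of `P` would be
functions of less than `2 n + 3` of them. The same count applies if at least four angles of `P` are
not angles of `Q`.
-/

namespace Pool.Agent.Results.MP_5b0138_an.AlmostEveryPolygon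

open MeasureTheory Filter
open Pool.Agent.W780.PG (IsConvexPolygon region ang)
open Pool.Agent.W703.GP (dirichletEigenvalue)
open scoped Real

/-- The plane domains are congruent. -/
def Congruent (Ω Ω' : Set ℂ) : Prop := ∃ φ : ℂ ≃ᵢ ℂ, φ '' Ω = Ω'

/-- A bounded convex domain. -/
structure ConvexDomain (D : Set ℂ) : Prop where
  isOpen : IsOpen D
  convex : Convex ℝ D
  isBounded : Bornology.IsBounded D
  nonempty : D.Nonempty

/-- All Dirichlet eigenvalues of the domains agree; if `D` is a convex polygon, then finitely many
exceptions are allowed. -/
def SameSpectrum (P D : Set ℂ) : Prop :=
  (∀ k : ℕ, 1 ≤ k → dirichletEigenvalue P k = dirichletEigenvalue D k) ∨
    (∃ S : Set ℂ, S.Finite ∧ D = interior (convexHull ℝ S)) ∧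
      ∀ᶠ k in atTop, dirichletEigenvalue P k = dirichletEigenvalue D k

/-- The perimeter. -/
noncomputable def perimeter {n : ℕ} (p : Fin (n + 3) → ℂ) : ℝ := ∑ k, dist (p (k + 1)) (p k)

/-- The height of the angle at `p k`: the distance of the nearer neighbour of this vertex from the
line of the other side. -/
noncomputable def height {n : ℕ} (p : Fin (n + 3) → ℂ) (k : Fin (n + 3)) : ℝ :=
  min (dist (p k) (p (k + 1))) (dist (p k) (p (k - 1))) * Real.sin (ang p k)

/-- The angles of `p` at `i` and `j` are acute, different, and not angles of `q`. -/
def NewAcute {n m : ℕ} (p : Fin (n + 3) → ℂ) (q : Fin (m + 3) → ℂ) (i j : Fin (n + 3)) : Prop :=
  ang p i < ang p j ∧ ang p j < π / 2 ∧ (∀ k, ang p i ≠ ang q k) ∧ ∀ k, ang p j ≠ ang q k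

/-- At most three angles of `p` are not angles of `q`, two different of them are acute, and `q` has two
different acute angles of the same height which are not angles of `p`. -/
def Exceptional {n m : ℕ} (p : Fin (n + 3) → ℂ) (q : Fin (m + 3) → ℂ) : Prop :=
  {i | ∀ k, ang p i ≠ ang q k}.ncard ≤ 3 ∧ (∃ i j, NewAcute p q i j) ∧
    ∃ i j, NewAcute q p i j ∧ height q i = height q j

/-- **Almost every convex polygon among all bounded convex domains.** For almost every convex polygon
`p`, every bounded convex domain `D` with the same Dirichlet spectrum is congruent to it, or `p` has at
least five vertices, `perimeter ^ 2 > (8 + 2 π) area`, the sum of `(π ^ 2 - α ^ 2) / α` over its angles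
`α` is larger than `5 π`, and `D` is a convex polygon `q` with more vertices such that at most three
angles of `p` are not angles of `q`, among them two different acute ones, and two different acute
angles of `q` of the same height are not angles of `p`. -/
theorem result (n : ℕ) : ∀ᵐ p : Fin (n + 3) → ℂ, IsConvexPolygon p →
    ∀ D : Set ℂ, ConvexDomain D → SameSpectrum (region p) D → Congruent (region p) D ∨
      (2 ≤ n ∧ (8 + 2 * π) * (volume (region p)).toReal < perimeter p ^ 2 ∧
        5 * π < ∑ k, (π ^ 2 - ang p k ^ 2) / ang p k ∧
        ∃ (m : ℕ) (q : Fin (m + 3) → ℂ), n < m ∧ IsConvexPolygon q ∧ region q = D ∧
          Exceptional p q) := by
  filter_upwards [Pool.Agent.H98.AF.almost_all2 n] with p h1 hp D hD hs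
  rcases h1 hp D ⟨hD.isOpen, hD.convex, hD.isBounded, hD.nonempty⟩ hs with
    h | ⟨hn, h3, h4, m, q, hm, hq, hD', h5, ⟨i, j, a1, a2, a3, a4⟩, v, w, b1, b2, b3, b4, b5⟩
  · exact Or.inl h
  · refine Or.inr ⟨hn, ?_, h4, m, q, hm, hq, hD', ?_, ⟨i, j, a1, a2, a3, a4⟩, v, w,
      ⟨b1, b2, b3, b4⟩, b5⟩
    · have e : perimeter p = Pool.Agent.Y289.SQ.per p := by
        unfold Pool.Agent.Y289.SQ.per perimeter
        exact Finset.sum_congr rfl fun k _ => dist_eq_norm _ _
      rw [e]
      exact h3
    · classical
      rw [Set.ncard_eq_toFinset_card']
      convert h5 using 2
      ext i
      simp

end Pool.Agent.Results.MP_5b0138_an.AlmostEveryPolygon
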