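import Pool.Agent.H78.FI.Main

set_option autoImplicit false

/-!
# Convex polygons have finitely many isospectral companions, up to the exceptional angles

Call an acute angle of a convex polygon with at least five vertices exceptional if the polygon has a
larger acute angle of the same height. Here the height of an acute angle is the distance of the nearer
neighbour of its vertex from the line of its other side. There are at most two exceptional angles, as
a convex polygon has at most three acute angles.

Let `P` be a convex polygon. The bounded convex domains with the same Dirichlet spectrum as `P` are
convex polygons, and we show that for each set `X` of numbers only finitely many of them, up to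
congruence, have the exceptional angles `X`. So the spectrum and the exceptional angles (at most two
numbers) determine the polygon up to finitely many possibilities. In particular (`X = ∅`) there are
only finitely many companions without exceptional angles. There are no exceptional angles in any
companion if all angles of `P` are at least `120` degrees, or if its perimeter `L` and its area `A`
satisfy `L ^ 2 ≤ (8 + 2 π) A`, or if the sum of `(π ^ 2 - α ^ 2) / α` over the angles `α` of `P` is at
most `5 π` (its value for the regular hexagon); in these cases the isospectral set of `P` is finite up
to congruence.

Main idea: suppose that there are infinitely many. The numbers of their vertices are bounded, so we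
get a sequence of polygons `Q_j` with the same number of vertices. Fix a nonprincipal ultrafilter on
the indices; a side is called known if its length and the angles at its ends are the same for almost
all `j`. By a dissection identity, `4 π t` times the heat trace, minus its classical terms, is a sum
of contributions of the pairs of sides whose turning angle is less than `π`: the loops which leave the
polygon across the two sides, but stay on the inner side of the lines of all sides between. The
contribution of a pair with known sides between is the same for almost all `j`. Let `δ` be the least
distance of a pair with an unknown side between. A closest pair of this kind has only one unknown side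
between, and it is the only side between or the next one to the foot of the altitude; hence the
contributions at the level `δ` are explicit. Their Laplace transforms are evaluated up to an
exponentially smaller error, and the analytic continuation of their densities determines the unknown
angles and lengths up to finitely many possibilities, except if the sides at the distance `δ` make
several acute angles, of equal heights; then the densities give only one equation for these angles,
which determines the largest one, as the others are exceptional. So an unknown side was known, a
contradiction. This fails if at most three sides are unknown; then the angle sum, the corner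
coefficients, the perimeter and the closing condition give the rest. It also fails if two antiparallel
sides have at most the distance `δ`; then on both sides of the strip at most one side is unknown, and
the area gives the last parameter up to two possibilities.
-/

open Set MeasureTheory Filter
open Pool.Agent.W780.PG (IsConvexPolygon region)
open Pool.Agent.W703.GP (dirichletEigenvalue)
open scoped Real

namespace Pool.Agent.Results.MP_5b0138_an.FinitelyManyCompanions

/-- a bounded convex domain of the plane -/
structure ConvexDomain (D : Set ℂ) : Prop where
  isOpen : IsOpen D
  convex : Convex ℝ D
  isBounded : Bornology.IsBounded D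
  nonempty : D.Nonempty

/-- all Dirichlet eigenvalues, with multiplicity, agree; if `D` is a polygon (the interior of the
convex hull of finitely many points), then finitely many exceptions are allowed -/
def SameSpectrum (P D : Set ℂ) : Prop :=
  (∀ k : ℕ, 1 ≤ k → dirichletEigenvalue P k = dirichletEigenvalue D k) ∨
    (∃ S : Set ℂ, S.Finite ∧ D = interior (convexHull ℝ S)) ∧
      ∀ᶠ k in atTop, dirichletEigenvalue P k = dirichletEigenvalue D k

/-- the interior angle at the vertex `p k` -/
noncomputable def vertexAngle {n : ℕ} (p : Fin (n + 3) → ℂ) (k : Fin (n + 3)) : ℝ :=
  EuclideanGeometry.angle (p (k - 1)) (p k) (p (k + 1))

/-- the height of an acute angle: the distance of the nearer neighbour of `p k` from the line of the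
other side at `p k` -/
noncomputable def height {n : ℕ} (p : Fin (n + 3) → ℂ) (k : Fin (n + 3)) : ℝ :=
  min (dist (p k) (p (k + 1))) (dist (p k) (p (k - 1))) * Real.sin (vertexAngle p k)

/-- the exceptional angles of a convex polygon with at least five vertices: the acute angles such that
the polygon has a larger acute angle of the same height -/
def exceptionalAngles {n : ℕ} (p : Fin (n + 3) → ℂ) : Set ℝ :=
  {α | 2 ≤ n ∧ ∃ v w, vertexAngle p v = α ∧ vertexAngle p v < vertexAngle p w ∧
    vertexAngle p w < π / 2 ∧ height p v = height p w}

/-- the perimeter -/
noncomputable def perimeter {n : ℕ} (p : Fin (n + 3) → ℂ) : ℝ := ∑ k, dist (p k) (p (k + 1))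

/-- the area -/
noncomputable def area (D : Set ℂ) : ℝ := (volume D).toReal

/-- `IsConvexPolygon p` says that `p : Fin (n + 3) → ℂ` lists the vertices of a convex polygon in
counterclockwise order, and `region p` is its interior. For each set `X` there is a finite list `D`
such that each bounded convex domain `Ω` with the same spectrum is a convex polygon `q` and is
congruent to a member of the list if the exceptional angles of `q` are `X`. -/
theorem result (n : ℕ) (p : Fin (n + 3) → ℂ) (hp : IsConvexPolygon p) (X : Set ℝ) :
    ∃ (N : ℕ) (D : Fin N → Set ℂ), ∀ Ω : Set ℂ, ConvexDomain Ω → SameSpectrum (region p) Ω →
      ∃ (m : ℕ) (q : Fin (m + 3) → ℂ), IsConvexPolygon q ∧ region q = Ω ∧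
        (exceptionalAngles q = X → ∃ (i : Fin N) (φ : ℂ ≃ᵢ ℂ), φ '' D i = Ω) ∧
        (exceptionalAngles q).encard ≤ 2 ∧
        ((exceptionalAngles q).Nonempty →
          (∃ k, vertexAngle p k < 2 * π / 3) ∧
          5 * π < ∑ k, (π ^ 2 - vertexAngle p k ^ 2) / vertexAngle p k ∧
          (8 + 2 * π) * area (region p) < perimeter p ^ 2) := by
  obtain ⟨N, D, h⟩ := Pool.Agent.H78.FI.main hp X
  refine ⟨N, D, fun Ω hΩ hs => ?_⟩
  obtain ⟨m, q, hq, e, h1, h2, h3⟩ :=
    h Ω ⟨hΩ.isOpen, hΩ.convex, hΩ.isBounded, hΩ.nonempty⟩ hs
  refine ⟨m, q, hq, e, fun hX => ?_, h2, fun hne => ?_⟩
  · obtain ⟨i, φ, hφ⟩ := h1 hX
    exact ⟨i, φ, hφ⟩
  · obtain ⟨h4, h5, h6⟩ := h3 hne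
    refine ⟨h6, h4, ?_⟩
    have e1 : perimeter p = Pool.Agent.Y289.SQ.per p := by
      unfold perimeter Pool.Agent.Y289.SQ.per
      refine Finset.sum_congr rfl fun k _ => ?_
      rw [dist_eq_norm, norm_sub_rev]
    rw [e1]
    exact h5

end Pool.Agent.Results.MP_5b0138_an.FinitelyManyCompanions
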