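import Pool.Agent.H70.BA.Fin

set_option autoImplicit false

/-!
# Most convex domains are determined by their Dirichlet spectrum

In the space of all compact convex sets of the plane with the Hausdorff metric, a locally compact
and complete metric space, the convex bodies whose interior is determined by its Dirichlet spectrum
among all bounded convex domains form a dense `G_δ` set; even the convex polygons with this property
are dense. The spectrum determines these bodies in a stable way: bounded convex domains whose first
eigenvalues are close to those of the body are close to a congruent copy of it.

Main idea: each convex body is a limit of polygons with pairwise different angles close to `π` whose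
sides are short and almost equal. (Take the circumscribed polygon with many equally spaced normals
of a parallel body, divide its sides into short pieces of almost the same length, and turn the
pieces slightly, by angles proportional to the squares of their numbers; two of the lengths are
corrected so that the polygon closes.) Such polygons are determined by their Dirichlet spectrum
among all bounded convex domains, by the separation of the contributions of the short sides to the
heat trace, level by level. The bodies `K` such that each isospectral body is within less than `ε` of
a congruent copy of `K` form an open set, since the eigenvalues are continuous in the Hausdorff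
metric and bodies with converging spectra have, up to translations, a convergent subsequence: small
and large eigenvalues bound the width from below and the diameter from above. The intersection of
these open sets over all `ε` is the set of the determined bodies, as limits of congruent copies are
congruent copies.
-/

open Set MeasureTheory Filter
open Pool.Agent.W780.PG (IsConvexPolygon region)
open Pool.Agent.W703.GP (dirichletEigenvalue)
open scoped Real

namespace Pool.Agent.Results.MP_5b0138_an.MostConvexDomains

/-- a bounded convex domain of the plane -/
structure ConvexDomain (D : Set ℂ) : Prop where
  isOpen : IsOpen D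
  convex : Convex ℝ D
  isBounded : Bornology.IsBounded D
  nonempty : D.Nonempty

/-- each bounded convex domain with the same Dirichlet eigenvalues, with multiplicity, as `D` is
congruent to `D` -/
def Determined (D : Set ℂ) : Prop :=
  ∀ D' : Set ℂ, ConvexDomain D' →
    (∀ k : ℕ, 1 ≤ k → dirichletEigenvalue D k = dirichletEigenvalue D' k) →
      ∃ φ : ℂ ≃ᵢ ℂ, φ '' D = D'

/-- each bounded convex domain whose first Dirichlet eigenvalues are almost the same as those of the
interior of `K` is close to a congruent copy of `K` -/
def Stable (K : Set ℂ) : Prop :=
  ∀ ε : ℝ, 0 < ε → ∃ (N : ℕ) (δ : ℝ), 0 < δ ∧ ∀ D : Set ℂ, ConvexDomain D →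
    (∀ k : ℕ, 1 ≤ k → k ≤ N →
      |dirichletEigenvalue D k - dirichletEigenvalue (interior K) k| < δ) →
    ∃ φ : ℂ ≃ᵢ ℂ, Metric.hausdorffDist (φ '' K) (closure D) < ε

/-- the convex bodies with interior points whose interior is determined, in a stable way, by its
Dirichlet spectrum among all bounded convex domains. `ConvexBody ℂ` is the space of all nonempty
compact convex subsets of the plane with the Hausdorff metric. -/
def Heard : Set (ConvexBody ℂ) :=
  {K | (interior (K : Set ℂ)).Nonempty ∧ Determined (interior (K : Set ℂ)) ∧ Stable (K : Set ℂ)}

/-- the convex hulls of finite sets -/
def Polygons : Set (ConvexBody ℂ) := {K | ∃ S : Set ℂ, S.Finite ∧ (K : Set ℂ) = convexHull ℝ S}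

/-- The convex bodies which are determined in a stable way by their Dirichlet spectrum form a `G_δ`
set, and the polygons in this set are dense in the space of all convex bodies; so this set is a dense
`G_δ`. (`φ : ℂ ≃ᵢ ℂ` is an isometry of the plane.) -/
theorem result : IsGδ Heard ∧ Dense (Heard ∩ Polygons) := by
  have hdet : ∀ D : Set ℂ, Determined D ↔ Pool.Agent.H70.BA.Det D := fun D =>
    ⟨fun h D' h1 h2 h3 h4 he => h D' ⟨h1, h2, h3, h4⟩ he,
      fun h D' hD he => h D' hD.isOpen hD.convex hD.isBounded hD.nonempty he⟩
  have hset : Heard = {K : ConvexBody ℂ | (interior (K : Set ℂ)).Nonempty ∧
      Pool.Agent.H70.BA.Det (interior (K : Set ℂ))} := by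
    ext K
    constructor
    · rintro ⟨h1, h2, -⟩
      exact ⟨h1, (hdet _).1 h2⟩
    · rintro ⟨h1, h2⟩
      refine ⟨h1, (hdet _).2 h2, fun ε hε => ?_⟩
      obtain ⟨N, δ, hδ, h⟩ := Pool.Agent.H70.BA.stable h1 h2 hε
      exact ⟨N, δ, hδ, fun D hD hk => h D ⟨hD.isOpen, hD.convex, hD.isBounded, hD.nonempty⟩ hk⟩
  rw [hset]
  exact ⟨Pool.Agent.H70.BA.gdelta, Pool.Agent.H70.BA.dense⟩

end Pool.Agent.Results.MP_5b0138_an.MostConvexDomains
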