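import Pool.Agent.H70.Q2.Main

set_option autoImplicit false

/-!
# Convex quadrilaterals among all bounded convex domains

A convex quadrilateral is determined by its Dirichlet spectrum among all bounded convex plane
domains, except possibly if it belongs to an explicit class (both pairs of opposite sides have the
same distance, and further inequalities), where it is determined among all bounded convex domains
other than the convex polygons with at least five vertices.

The heat trace gives the area, the perimeter, the sum of the corner coefficients, the least distance
of two sides which are not adjacent and, by its first exponentially small term, for each pair of acute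
exterior angles the number of sides with these exterior angles whose neighbours have the least
distance, and linear combinations of the data of those with an exterior angle at least `π / 2`. The
contributions of several sides are separated by analytic continuation of their Laplace transforms.
A convex polygon with at least five vertices cannot share the datum of a side (its two exterior
angles and its length) with an isospectral quadrilateral: both are completed by the triangle
beyond this side, the completed quadrilateral is a triangle, for which Lhuilier's inequality
`4 S T ≤ L ^ 2` is an equality, and the sum `T` of the tangents of the half exterior angles is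
strictly larger for the other polygon.
-/

namespace Pool.Agent.Results.MP_5b0138_an.QuadrilateralsAmongConvexDomains

open Pool.Agent.W780.PG (IsConvexPolygon region ang)
open Pool.Agent.W703.GP (dirichletEigenvalue)
open scoped Real

/-- The plane domains are congruent. -/
def Congruent (Ω Ω' : Set ℂ) : Prop := ∃ φ : ℂ ≃ᵢ ℂ, φ '' Ω = Ω'

/-- The distance of the side of the quadrilateral `p` from `p k` to `p (k + 1)` to the opposite
side. -/
noncomputable def oppDist (p : Fin (1 + 3) → ℂ) (k : Fin (1 + 3)) : ℝ :=
  sInf {r : ℝ | ∃ x ∈ segment ℝ (p k) (p (k + 1)), ∃ y ∈ segment ℝ (p (k + 2)) (p (k + 3)),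
    r = dist x y}

/-- The perimeter. -/
noncomputable def perimeter (p : Fin (1 + 3) → ℂ) : ℝ := ∑ k, dist (p (k + 1)) (p k)

/-- The exceptional class: the two pairs of opposite sides have the same distance `d`, the perimeter
is at least `5 d`, and some interior angle (at `p (k + 1)`) is larger than the supplements of its two
neighbours (at `p k` and `p (k + 2)`), which are acute. -/
def Exceptional (p : Fin (1 + 3) → ℂ) : Prop :=
  oppDist p 0 = oppDist p 1 ∧ 5 * oppDist p 0 ≤ perimeter p ∧
    ∃ k, ang p k < π / 2 ∧ ang p (k + 2) < π / 2 ∧ π < ang p k + ang p (k + 1) ∧
      π < ang p (k + 1) + ang p (k + 2)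

theorem exc {p : Fin (1 + 3) → ℂ} (h : Pool.Agent.H70.Q2.Exc p) : Exceptional p := by
  obtain ⟨h1, h2, h3⟩ := h
  refine ⟨h1, ?_, h3⟩
  have e1 : Pool.Agent.R225.LP.sd p = oppDist p 0 := by
    have h4 := Pool.Agent.N885.QD.sd_min p 0
    rw [h4]
    have e2 : Pool.Agent.N275.QD.ds p (0 + 1) = Pool.Agent.N275.QD.ds p 0 := h1.symm
    rw [e2, min_self]
    rfl
  have e2 : Pool.Agent.Y289.SQ.per p = perimeter p := by
    unfold Pool.Agent.Y289.SQ.per perimeter
    exact Finset.sum_congr rfl fun k _ => (dist_eq_norm _ _).symm
  rw [← e1, ← e2]
  exact h2

/-- **A convex quadrilateral among all bounded convex domains.** Let `region p` be a convex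
quadrilateral and `D` a bounded convex domain with the same Dirichlet eigenvalues. Then `D` is
congruent to it, unless `p` is exceptional and `D` is a convex polygon with at least five
vertices. -/
theorem result (p : Fin (1 + 3) → ℂ) (hp : IsConvexPolygon p) (D : Set ℂ) (hD : IsOpen D)
    (hc : Convex ℝ D) (hb : Bornology.IsBounded D) (hne : D.Nonempty)
    (h : ∀ k : ℕ, dirichletEigenvalue (region p) k = dirichletEigenvalue D k) :
    Congruent (region p) D ∨ (Exceptional p ∧ ∃ m : ℕ, 2 ≤ m ∧ ∃ q : Fin (m + 3) → ℂ,
      IsConvexPolygon q ∧ region q = D) := by
  obtain ⟨m, q, hq, rfl⟩ :=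
    Pool.Agent.N596.IS.poly_of_iso hD hc hb hne hp fun k => (h (k + 1)).symm
  by_cases hx : Pool.Agent.H70.Q2.Exc p
  · by_cases hm : 2 ≤ m
    · exact Or.inr ⟨exc hx, m, hm, q, hq, rfl⟩
    · have h1 := (Pool.Agent.R225.LP.least_distance (n := 0) p q hp hq h).1
      obtain rfl : m = 1 := by omega
      exact Or.inl (Pool.Agent.H78.QQ.quads p q hp hq h)
  · exact Or.inl (Pool.Agent.H70.Q2.poly hp hx hq h)

end Pool.Agent.Results.MP_5b0138_an.QuadrilateralsAmongConvexDomains
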